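import Pool.Agent.Helper446.LS.Eff
import Pool.Agent.Helper446.LS.Emb
import Pool.Agent.Helper446.LS.WPB

/-!
The forall-exists theory of the lattice of c.e. subspaces modulo finite dimension is undecidable;
even its universal fragment is undecidable.
-/

namespace Pool.Agent.Results.MP_8d6ead_lc.AEUndecidable

open Submodule

universe u v w

/-- `V` is a computable vector space of countably infinite dimension over the computable field
`F`, with a dependence algorithm: linear independence of a finite set, given as a list of its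
elements, is decidable. (The codings are the `Primcodable` instances; in particular `F` and `V`
are countable and have decidable equality.) -/
class ComputableSpace (F : Type u) (V : Type v) [Field F] [Primcodable F]
    [AddCommGroup V] [Module F V] [Primcodable V] : Prop where
  field_add : Computable₂ fun a b : F => a + b
  field_mul : Computable₂ fun a b : F => a * b
  add : Computable₂ fun x y : V => x + y
  smul : Computable₂ fun (c : F) (x : V) => c • x
  infinite_dim : ¬ FiniteDimensional F V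
  dependence : ComputablePred fun l : List V => LinearIndepOn F id {x | x ∈ l}

section lattice

variable (F : Type u) (V : Type v) [Field F] [Primcodable F] [AddCommGroup V] [Module F V]
  [Primcodable V]

/-- The computably enumerable subspaces of `V`. -/
def CESubspace : Type v := {W : Submodule F V // REPred fun x => x ∈ W}

/-- Intersection of c.e. subspaces. -/
instance : Min (CESubspace F V) :=
  ⟨fun W W' => ⟨W.1 ⊓ W'.1, Pool.Agent.Helper446.RE.and W.2 W'.2⟩⟩

/-- Sum of c.e. subspaces. -/
instance [ComputableSpace F V] : Max (CESubspace F V) :=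
  ⟨fun W W' => ⟨W.1 ⊔ W'.1,
    Pool.Agent.Helper446.Construct.re_sup (ComputableSpace.add F) W.2 W'.2⟩⟩

/-- The zero subspace. -/
instance : Bot (CESubspace F V) :=
  ⟨⟨⊥, (Pool.Agent.Helper446.RE.eq (f := fun x : V => x) (g := fun _ => 0) Computable.id
    (Computable.const 0)).of_eq fun _ => (Submodule.mem_bot F).symm⟩⟩

/-- The whole space. -/
instance : Top (CESubspace F V) :=
  ⟨⟨⊤, (Pool.Agent.Helper446.RE.const True).of_eq fun _ => by simp⟩⟩

/-- `W =* W'`: `W + U = W' + U` for some finite-dimensional subspace `U`. -/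
def starEq (W W' : CESubspace F V) : Prop :=
  ∃ U : Submodule F V, FiniteDimensional F U ∧ W.1 ⊔ U = W'.1 ⊔ U

/-- The relation `=*` is an equivalence relation. -/
instance starSetoid : Setoid (CESubspace F V) where
  r := starEq F V
  iseqv :=
    { refl := fun W => ⟨⊥, inferInstance, rfl⟩
      symm := fun {_ _} ⟨U, hU, h⟩ => ⟨U, hU, h.symm⟩
      trans := fun {W W' W''} ⟨U, hU, h⟩ ⟨U', hU', h'⟩ => by
        refine ⟨U ⊔ U', inferInstance, ?_⟩
        rw [← sup_assoc, h, sup_assoc, sup_comm U U', ← sup_assoc, h', sup_assoc] }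

theorem starEq_iff_J (W W' : CESubspace F V) :
    starEq F V W W' ↔ Pool.Agent.Helper446.LS.J W.1 = Pool.Agent.Helper446.LS.J W'.1 :=
  (Pool.Agent.Helper446.LS.J_eq_iff).symm

/-- The quotient `L*(V)` of the lattice of c.e. subspaces by `=*`. -/
def LStar : Type v := Quotient (starSetoid F V)

/-- The meet of `L*(V)`, induced by intersection. -/
instance : Min (LStar F V) :=
  ⟨Quotient.map₂ (fun W W' : CESubspace F V => W ⊓ W') (by
    intro W1 W2 h W1' W2' h'
    change starEq F V _ _ at h
    change starEq F V _ _ at h'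
    change starEq F V _ _
    rw [starEq_iff_J] at h h' ⊢
    change Pool.Agent.Helper446.LS.J (W1.1 ⊓ W1'.1) = Pool.Agent.Helper446.LS.J (W2.1 ⊓ W2'.1)
    rw [Pool.Agent.Helper446.LS.J_inf, Pool.Agent.Helper446.LS.J_inf, h, h'])⟩

/-- The join of `L*(V)`, induced by the sum. -/
instance [ComputableSpace F V] : Max (LStar F V) :=
  ⟨Quotient.map₂ (fun W W' : CESubspace F V => W ⊔ W') (by
    intro W1 W2 h W1' W2' h'
    change starEq F V _ _ at h
    change starEq F V _ _ at h'
    change starEq F V _ _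
    rw [starEq_iff_J] at h h' ⊢
    change Pool.Agent.Helper446.LS.J (W1.1 ⊔ W1'.1) = Pool.Agent.Helper446.LS.J (W2.1 ⊔ W2'.1)
    rw [Pool.Agent.Helper446.LS.J_sup, Pool.Agent.Helper446.LS.J_sup, h, h'])⟩

/-- The class of the zero subspace. -/
instance : Bot (LStar F V) := ⟨Quotient.mk _ ⊥⟩

/-- The class of the whole space. -/
instance : Top (LStar F V) := ⟨Quotient.mk _ ⊤⟩

end lattice

/-- Lattice terms with constants `0` and `1`, in the variables `x_0, …, x_{n-1}`. -/
inductive LTm (n : ℕ) : Type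
  | var (i : Fin n) : LTm n
  | zero : LTm n
  | one : LTm n
  | meet (s t : LTm n) : LTm n
  | join (s t : LTm n) : LTm n

/-- Quantifier-free formulas in the variables `x_0, …, x_{n-1}`. -/
inductive LFm (n : ℕ) : Type
  | eq (s t : LTm n) : LFm n
  | not (φ : LFm n) : LFm n
  | and (φ ψ : LFm n) : LFm n
  | or (φ ψ : LFm n) : LFm n

/-- The sentence `∀ x_0 … x_{m-1} ∃ x_m … x_{m+k-1} φ`, with `φ` quantifier-free. -/
structure AESentence : Type where
  m : ℕ
  k : ℕ
  matrix : LFm (m + k)

section semantics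

variable {L : Type w} [Min L] [Max L] [Bot L] [Top L]

/-- The value of a term. -/
def LTm.eval {n : ℕ} (v : Fin n → L) : LTm n → L
  | .var i => v i
  | .zero => ⊥
  | .one => ⊤
  | .meet s t => s.eval v ⊓ t.eval v
  | .join s t => s.eval v ⊔ t.eval v

/-- Truth of a quantifier-free formula under an assignment. -/
def LFm.Holds {n : ℕ} (v : Fin n → L) : LFm n → Prop
  | .eq s t => s.eval v = t.eval v
  | .not φ => ¬ φ.Holds v
  | .and φ ψ => φ.Holds v ∧ ψ.Holds v
  | .or φ ψ => φ.Holds v ∨ ψ.Holds v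

variable (L) in
/-- Truth of a `∀∃` sentence in `L`. -/
def AESentence.Holds (σ : AESentence) : Prop :=
  ∀ x : Fin σ.m → L, ∃ y : Fin σ.k → L, σ.matrix.Holds (Fin.append x y)

end semantics

/-- The Goedel number of a term. -/
def LTm.code {n : ℕ} : LTm n → ℕ
  | .var i => Nat.pair 0 i
  | .zero => Nat.pair 1 0
  | .one => Nat.pair 2 0
  | .meet s t => Nat.pair 3 (Nat.pair s.code t.code)
  | .join s t => Nat.pair 4 (Nat.pair s.code t.code)

/-- The Goedel number of a quantifier-free formula. -/
def LFm.code {n : ℕ} : LFm n → ℕ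
  | .eq s t => Nat.pair 0 (Nat.pair s.code t.code)
  | .not φ => Nat.pair 1 φ.code
  | .and φ ψ => Nat.pair 2 (Nat.pair φ.code ψ.code)
  | .or φ ψ => Nat.pair 3 (Nat.pair φ.code ψ.code)

/-- The Goedel number of a `∀∃` sentence. -/
def AESentence.code (σ : AESentence) : ℕ := Nat.pair σ.m (Nat.pair σ.k σ.matrix.code)

theorem LTm.code_injective {n : ℕ} : Function.Injective (LTm.code (n := n)) := by
  intro s
  induction s with
  | var i =>
    intro t h
    cases t <;> simp only [LTm.code, Nat.pair_eq_pair] at h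
    · congr 1; exact Fin.ext h.2
    all_goals omega
  | zero =>
    intro t h
    cases t <;> simp only [LTm.code, Nat.pair_eq_pair] at h
    · omega
    · rfl
    all_goals omega
  | one =>
    intro t h
    cases t <;> simp only [LTm.code, Nat.pair_eq_pair] at h
    · omega
    · omega
    · rfl
    all_goals omega
  | meet s t hs ht =>
    intro u h
    cases u <;> simp only [LTm.code, Nat.pair_eq_pair] at h
    · omega
    · omega
    · omega
    · rw [hs h.2.1, ht h.2.2]
    · omega
  | join s t hs ht =>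
    intro u h
    cases u <;> simp only [LTm.code, Nat.pair_eq_pair] at h
    · omega
    · omega
    · omega
    · omega
    · rw [hs h.2.1, ht h.2.2]

theorem LFm.code_injective {n : ℕ} : Function.Injective (LFm.code (n := n)) := by
  intro s
  induction s with
  | eq s t =>
    intro u h
    cases u <;> simp only [LFm.code, Nat.pair_eq_pair] at h
    · rw [LTm.code_injective h.2.1, LTm.code_injective h.2.2]
    all_goals omega
  | not φ hφ =>
    intro u h
    cases u <;> simp only [LFm.code, Nat.pair_eq_pair] at h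
    · omega
    · rw [hφ h.2]
    all_goals omega
  | and s t hs ht =>
    intro u h
    cases u <;> simp only [LFm.code, Nat.pair_eq_pair] at h
    · omega
    · omega
    · rw [hs h.2.1, ht h.2.2]
    · omega
  | or s t hs ht =>
    intro u h
    cases u <;> simp only [LFm.code, Nat.pair_eq_pair] at h
    · omega
    · omega
    · omega
    · rw [hs h.2.1, ht h.2.2]

theorem AESentence.code_injective : Function.Injective AESentence.code := by
  rintro ⟨m, k, φ⟩ ⟨m', k', φ'⟩ h
  simp only [AESentence.code, Nat.pair_eq_pair] at h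
  obtain ⟨rfl, rfl, h⟩ := h
  rw [LFm.code_injective h]


/-! ### The sentence attached to a word -/

section sentence

open Pool.Agent.Helper446.LS

instance {n : ℕ} : Min (LTm n) := ⟨LTm.meet⟩
instance {n : ℕ} : Max (LTm n) := ⟨LTm.join⟩

/-- The list of the equations of a frame. -/
def frmEqs {L : Type w} [Min L] [Max L] (z a1 a2 a3 c12 c23 : L) : List (L × L) :=
  [(z ⊓ a1, z), (z ⊓ a2, z), (z ⊓ a3, z), (z ⊓ c12, z), (z ⊓ c23, z),
    (c12 ⊓ (a1 ⊔ a2), c12), (c23 ⊓ (a2 ⊔ a3), c23), ((a1 ⊔ a2) ⊓ a3, z), ((a1 ⊔ a3) ⊓ a2, z),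
    ((a2 ⊔ a3) ⊓ a1, z), (c12 ⊓ a1, z), (c12 ⊓ a2, z), (c23 ⊓ a2, z), (c12 ⊔ a2, a1 ⊔ a2),
    (c12 ⊔ a1, a1 ⊔ a2), (c23 ⊔ a3, a2 ⊔ a3)]

theorem frm_iff {L : Type w} [Min L] [Max L] (z a1 a2 a3 c12 c23 : L) :
    Frm z a1 a2 a3 c12 c23 ↔ ∀ p ∈ frmEqs z a1 a2 a3 c12 c23, p.1 = p.2 := by
  constructor
  · intro h p hp
    simp only [frmEqs, List.mem_cons, List.not_mem_nil, or_false] at hp
    rcases hp with rfl | rfl | rfl | rfl | rfl | rfl | rfl | rfl | rfl | rfl | rfl | rfl | rfl |
      rfl | rfl | rfl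
    exacts [h.h1, h.h2, h.h3, h.h4, h.h5, h.h6, h.h7, h.i1, h.i2, h.i3, h.k1, h.k2, h.k3, h.t1,
      h.t2, h.t3]
  · intro h
    simp only [frmEqs, List.forall_mem_cons, List.not_mem_nil, false_imp_iff, implies_true,
      and_true] at h
    obtain ⟨h1, h2, h3, h4, h5, h6, h7, h8, h9, h10, h11, h12, h13, h14, h15, h16⟩ := h
    exact ⟨h1, h2, h3, h4, h5, h6, h7, h8, h9, h10, h11, h12, h13, h14, h15, h16⟩

variable {m : ℕ}

/-- All the equations in the hypothesis. -/
noncomputable def hypEqs {L : Type w} [Min L] [Max L] (R : Finset (FreeGroup (Fin m)))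
    (z a1 a2 a3 c12 c23 : L) (g : Fin m × Bool → L) : List (L × L) :=
  frmEqs z a1 a2 a3 c12 c23 ++
  ((Finset.univ : Finset (Fin m × Bool)).toList.map (fun x => (z ⊓ g x, z)) ++
  ((Finset.univ : Finset (Fin m × Bool)).toList.map (fun x => (g x ⊓ (a1 ⊔ a2), g x)) ++
  ((Finset.univ : Finset (Fin m × Bool)).toList.map
    (fun x => (wd a1 a2 a3 c12 c23 g [(x.1, x.2), (x.1, !x.2)], c12)) ++
  R.toList.map (fun r => (wd a1 a2 a3 c12 c23 g (FreeGroup.toWord r), c12)))))

theorem hyp_iff {L : Type w} [Min L] [Max L] (R : Finset (FreeGroup (Fin m)))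
    (z a1 a2 a3 c12 c23 : L) (g : Fin m × Bool → L) :
    (∀ p ∈ hypEqs R z a1 a2 a3 c12 c23 g, p.1 = p.2) ↔
      Frm z a1 a2 a3 c12 c23 ∧ (∀ x, z ⊓ g x = z ∧ g x ⊓ (a1 ⊔ a2) = g x) ∧
      (∀ i b, wd a1 a2 a3 c12 c23 g [(i, b), (i, !b)] = c12) ∧
      ∀ r ∈ (R : Set (FreeGroup (Fin m))), wd a1 a2 a3 c12 c23 g (FreeGroup.toWord r) = c12 := by
  rw [frm_iff]
  unfold hypEqs
  simp only [List.forall_mem_append, List.forall_mem_map, Finset.mem_toList, Finset.mem_univ,
    forall_true_left, Finset.mem_coe, Prod.forall]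
  constructor
  · rintro ⟨h1, h2, h3, h4, h5⟩
    exact ⟨h1, fun i b => ⟨h2 i b, h3 i b⟩, h4, h5⟩
  · rintro ⟨h1, h2, h3, h4⟩
    exact ⟨h1, fun i b => (h2 i b).1, fun i b => (h2 i b).2, h3, h4⟩

theorem hypEqs_map {L L' : Type*} [Min L] [Max L] [Min L'] [Max L'] (f : L → L')
    (hi : ∀ x y, f (x ⊓ y) = f x ⊓ f y) (hs : ∀ x y, f (x ⊔ y) = f x ⊔ f y)
    (R : Finset (FreeGroup (Fin m))) (z a1 a2 a3 c12 c23 : L) (g : Fin m × Bool → L) :
    (hypEqs R z a1 a2 a3 c12 c23 g).map (fun p => (f p.1, f p.2)) =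
      hypEqs R (f z) (f a1) (f a2) (f a3) (f c12) (f c23) (fun x => f (g x)) := by
  unfold hypEqs frmEqs
  simp only [List.map_append, List.map_cons, List.map_nil, List.map_map, Function.comp_def, hi,
    hs, wd_map f hi hs]

/-- The number of variables. -/
noncomputable def nv (m : ℕ) : ℕ := Fintype.card (Fin 6 ⊕ (Fin m × Bool))

/-- The numbering of the variables. -/
noncomputable def vr (m : ℕ) : (Fin 6 ⊕ (Fin m × Bool)) ≃ Fin (nv m) := Fintype.equivFin _

/-- The variable terms. -/
noncomputable def vt (m : ℕ) (x : Fin 6 ⊕ (Fin m × Bool)) : LTm (nv m) := .var (vr m x)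

/-- The term of a word. -/
noncomputable def wt (w : List (Fin m × Bool)) : LTm (nv m) :=
  wd (vt m (.inl 1)) (vt m (.inl 2)) (vt m (.inl 3)) (vt m (.inl 4)) (vt m (.inl 5))
    (fun x => vt m (.inr x)) w

/-- The conjunction of a list of equations. -/
def conjEq {n : ℕ} : List (LTm n × LTm n) → LFm n
  | [] => .eq .zero .zero
  | p :: l => .and (.eq p.1 p.2) (conjEq l)

/-- The matrix. -/
noncomputable def mat (R : Finset (FreeGroup (Fin m))) (w : List (Fin m × Bool)) :
    LFm (nv m) :=
  .or (.not (conjEq (hypEqs R (vt m (.inl 0)) (vt m (.inl 1)) (vt m (.inl 2)) (vt m (.inl 3))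
    (vt m (.inl 4)) (vt m (.inl 5)) (fun x => vt m (.inr x))))) (.eq (wt w) (vt m (.inl 4)))

/-- The sentence. -/
noncomputable def sen (R : Finset (FreeGroup (Fin m))) (w : List (Fin m × Bool)) : AESentence :=
  ⟨nv m, 0, mat R w⟩

theorem holds_conjEq {n : ℕ} {L : Type w} [Min L] [Max L] [Bot L] [Top L] (v : Fin n → L)
    (l : List (LTm n × LTm n)) :
    (conjEq l).Holds v ↔ ∀ p ∈ l.map (fun p => (p.1.eval v, p.2.eval v)), p.1 = p.2 := by
  induction l with
  | nil => simp [conjEq, LFm.Holds]
  | cons p l ih => simp [conjEq, LFm.Holds, ih]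

theorem append_nil {L : Type w} {n : ℕ} (v : Fin n → L) (y : Fin 0 → L) :
    (Fin.append v y : Fin (n + 0) → L) = v := by
  rw [Fin.append_right_nil _ _ rfl]
  rfl

theorem holds_sen {L : Type w} [Min L] [Max L] [Bot L] [Top L]
    (R : Finset (FreeGroup (Fin m))) (w : List (Fin m × Bool)) :
    (sen R w).Holds L ↔ ∀ (z a1 a2 a3 c12 c23 : L) (g : Fin m × Bool → L),
      Frm z a1 a2 a3 c12 c23 → (∀ x, z ⊓ g x = z ∧ g x ⊓ (a1 ⊔ a2) = g x) →
      (∀ i b, wd a1 a2 a3 c12 c23 g [(i, b), (i, !b)] = c12) →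
      (∀ r ∈ (R : Set (FreeGroup (Fin m))), wd a1 a2 a3 c12 c23 g (FreeGroup.toWord r) = c12) →
      wd a1 a2 a3 c12 c23 g w = c12 := by
  have h1 : (sen R w).Holds L ↔ ∀ v : Fin (nv m) → L, (mat R w).Holds v := by
    unfold AESentence.Holds
    constructor
    · intro h v
      obtain ⟨y, hy⟩ := h v
      have h0 := append_nil v y
      change (mat R w).Holds (Fin.append v y : Fin (nv m + 0) → L) at hy
      rw [h0] at hy
      exact hy
    · intro h (v : Fin (nv m) → L)
      refine ⟨Fin.elim0, ?_⟩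
      have h0 := append_nil v (Fin.elim0 : Fin 0 → L)
      change (mat R w).Holds (Fin.append v Fin.elim0 : Fin (nv m + 0) → L)
      rw [h0]
      exact h v
  rw [h1]
  have h2 : ∀ v : Fin (nv m) → L, (mat R w).Holds v ↔
      ((∀ p ∈ hypEqs R (v (vr m (.inl 0))) (v (vr m (.inl 1))) (v (vr m (.inl 2)))
        (v (vr m (.inl 3))) (v (vr m (.inl 4))) (v (vr m (.inl 5))) (fun x => v (vr m (.inr x))),
        p.1 = p.2) → wd (v (vr m (.inl 1))) (v (vr m (.inl 2)))
        (v (vr m (.inl 3))) (v (vr m (.inl 4))) (v (vr m (.inl 5))) (fun x => v (vr m (.inr x))) w =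
        v (vr m (.inl 4))) := by
    intro v
    change (¬ (conjEq _).Holds v ∨ (wt w).eval v = _) ↔ _
    rw [holds_conjEq, hypEqs_map (LTm.eval v) (fun _ _ => rfl) (fun _ _ => rfl), ← imp_iff_not_or]
    unfold wt
    rw [wd_map (LTm.eval v) (fun _ _ => rfl) (fun _ _ => rfl)]
    rfl
  simp only [h2]
  constructor
  · intro h z a1 a2 a3 c12 c23 g k1 k2 k3 k4
    have h3 := h ((Sum.elim ![z, a1, a2, a3, c12, c23] g) ∘ (vr m).symm)
    simp only [Function.comp_apply, Equiv.symm_apply_apply, Sum.elim_inl, Sum.elim_inr] at h3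
    exact h3 ((hyp_iff R z a1 a2 a3 c12 c23 g).2 ⟨k1, k2, k3, k4⟩)
  · intro h v hv
    obtain ⟨k1, k2, k3, k4⟩ := (hyp_iff _ _ _ _ _ _ _ _).1 hv
    exact h _ _ _ _ _ _ _ k1 k2 k3 k4

end sentence

/-! ### Truth of the sentence -/

section truth

open Pool.Agent.Helper446.LS

variable (F : Type u) (V : Type v) [Field F] [Primcodable F] [AddCommGroup V] [Module F V]
  [Primcodable V] [ComputableSpace F V]

/-- The embedding of `L*(V)`. -/
def emb : LStar F V → Submodule F (ℕ → V) :=
  Quotient.lift (fun W : CESubspace F V => J W.1) (fun W W' h => (starEq_iff_J F V W W').1 h)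

theorem emb_injective : Function.Injective (emb F V) := by
  intro x y
  induction x using Quotient.inductionOn with | _ W
  induction y using Quotient.inductionOn with | _ W'
  intro h
  exact Quotient.sound ((starEq_iff_J F V W W').2 h)

theorem emb_inf (x y : LStar F V) : emb F V (x ⊓ y) = emb F V x ⊓ emb F V y := by
  induction x using Quotient.inductionOn with | _ W
  induction y using Quotient.inductionOn with | _ W'
  exact J_inf _ _

theorem emb_sup (x y : LStar F V) : emb F V (x ⊔ y) = emb F V x ⊔ emb F V y := by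
  induction x using Quotient.inductionOn with | _ W
  induction y using Quotient.inductionOn with | _ W'
  exact J_sup _ _

/-- The underlying subspace. -/
def sv (x : CESubspace F V) : Submodule F V := x.1

theorem sv_inf (x y : CESubspace F V) : sv F V (x ⊓ y) = sv F V x ⊓ sv F V y := rfl
theorem sv_sup (x y : CESubspace F V) : sv F V (x ⊔ y) = sv F V x ⊔ sv F V y := rfl
theorem sv_inj : Function.Injective (sv F V) := Subtype.val_injective

/-- The class of a c.e. subspace. -/
def qt (x : CESubspace F V) : LStar F V := Quotient.mk _ x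

theorem qt_inf (x y : CESubspace F V) : qt F V (x ⊓ y) = qt F V x ⊓ qt F V y := rfl
theorem qt_sup (x y : CESubspace F V) : qt F V (x ⊔ y) = qt F V x ⊔ qt F V y := rfl
theorem qt_exact {x y : CESubspace F V} (h : qt F V x = qt F V y) : starEq F V x y :=
  Quotient.exact h

theorem holds_sen_iff {m : ℕ} (R : Finset (FreeGroup (Fin m))) (w : List (Fin m × Bool)) :
    (sen R w).Holds (LStar F V) ↔
      FreeGroup.mk w ∈ Subgroup.normalClosure (R : Set (FreeGroup (Fin m))) := by
  rw [holds_sen]
  constructor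
  · intro h
    by_contra hw
    obtain ⟨z, a1, a2, a3, c12, c23, g, rz, r1, r2, r3, r12, r23, rg, hF, hg, hs, hn⟩ :=
      exists_model (F := F) (V := V) (ComputableSpace.add F) (ComputableSpace.smul)
        (ComputableSpace.infinite_dim) (ComputableSpace.dependence) R
    let z' : CESubspace F V := ⟨z, rz⟩
    let a1' : CESubspace F V := ⟨a1, r1⟩
    let a2' : CESubspace F V := ⟨a2, r2⟩
    let a3' : CESubspace F V := ⟨a3, r3⟩
    let c12' : CESubspace F V := ⟨c12, r12⟩
    let c23' : CESubspace F V := ⟨c23, r23⟩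
    let g' : Fin m × Bool → CESubspace F V := fun x => ⟨g x, rg x⟩
    have hF' : Frm z' a1' a2' a3' c12' c23' :=
      Frm.of_map (sv F V) (sv_inf F V) (sv_sup F V) (sv_inj F V) hF
    have hwd : ∀ w, sv F V (wd a1' a2' a3' c12' c23' g' w) = wd a1 a2 a3 c12 c23 g w := fun w =>
      wd_map (sv F V) (sv_inf F V) (sv_sup F V) a1' a2' a3' c12' c23' g' w
    have hg1 : ∀ x, z' ⊓ g' x = z' := fun x => sv_inj F V (hg x).1
    have hg2 : ∀ x, g' x ⊓ (a1' ⊔ a2') = g' x := fun x => sv_inj F V (hg x).2
    have hs' : ∀ w, FreeGroup.mk w ∈ Subgroup.normalClosure (R : Set (FreeGroup (Fin m))) →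
        wd a1' a2' a3' c12' c23' g' w = c12' := fun w hw => sv_inj F V (by rw [hwd, hs w hw]; rfl)
    have hq := h (qt F V z') (qt F V a1') (qt F V a2') (qt F V a3') (qt F V c12') (qt F V c23')
      (fun x => qt F V (g' x)) (Frm.map (qt F V) (qt_inf F V) (qt_sup F V) hF')
      (fun x => by
        rw [← qt_inf, ← qt_sup, ← qt_inf, hg1, hg2]
        exact ⟨rfl, rfl⟩)
      (fun i b => by
        rw [← wd_map (qt F V) (qt_inf F V) (qt_sup F V), hs']
        have : FreeGroup.mk [(i, b), (i, !b)] = 1 := by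
          rw [FreeGroup.one_eq_mk]
          apply Quot.sound
          exact FreeGroup.Red.Step.not (L₁ := []) (L₂ := [])
        rw [this]
        exact one_mem _)
      (fun r hr => by
        rw [← wd_map (qt F V) (qt_inf F V) (qt_sup F V), hs']
        rw [FreeGroup.mk_toWord]
        exact Subgroup.subset_normalClosure hr)
    rw [← wd_map (qt F V) (qt_inf F V) (qt_sup F V)] at hq
    obtain ⟨U, hU, hUe⟩ := qt_exact F V hq
    refine hn w hw ⟨U, hU, ?_⟩
    rw [← hwd]
    exact hUe
  · intro hw z a1 a2 a3 c12 c23 g hF hg hinv hR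
    apply emb_injective F V
    rw [wd_map (emb F V) (emb_inf F V) (emb_sup F V)]
    refine wd_eq_of_mem (Frm.map (emb F V) (emb_inf F V) (emb_sup F V) hF) _ ?_ ?_
      (R : Set (FreeGroup (Fin m))) ?_ hw
    · intro x
      rw [← emb_inf, ← emb_sup, ← emb_inf, (hg x).1, (hg x).2]
      exact ⟨rfl, rfl⟩
    · intro i b
      rw [← wd_map (emb F V) (emb_inf F V) (emb_sup F V), hinv]
    · intro r hr
      rw [← wd_map (emb F V) (emb_inf F V) (emb_sup F V), hR r hr]

end truth

/-! ### Computability of the reduction -/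

section reduction

open Pool.Agent.Helper446.LS Pool.Agent.Helper446.RE

variable {m : ℕ}

/-- The effect of a letter on codes. -/
noncomputable def cst (m : ℕ) (p acc : ℕ) : ℕ :=
  Nat.pair 3 (Nat.pair
    (Nat.pair 4 (Nat.pair
      (Nat.pair 3 (Nat.pair (Nat.pair 4 (Nat.pair p (vt m (.inl 5)).code))
        (LTm.code (vt m (.inl 1) ⊔ vt m (.inl 3)))))
      (Nat.pair 3 (Nat.pair
        (Nat.pair 4 (Nat.pair (LTm.code ((vt m (.inl 4) ⊔ vt m (.inl 5)) ⊓
          (vt m (.inl 1) ⊔ vt m (.inl 3)))) acc))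
        (LTm.code (vt m (.inl 2) ⊔ vt m (.inl 3)))))))
    (LTm.code (vt m (.inl 1) ⊔ vt m (.inl 2))))

theorem code_wt (w : List (Fin m × Bool)) :
    (wt w).code = w.foldr (fun x acc => cst m (vt m (.inr x)).code acc)
      (vt m (.inl 4)).code := by
  induction w with
  | nil => rfl
  | cons x w ih =>
    rw [List.foldr_cons, ← ih]
    rfl

theorem cst_comp : Computable fun q : ℕ × ℕ => cst m q.1 q.2 := by
  unfold cst
  fun_prop

theorem comp_foldr {α : Type} [Primcodable α] {W : ℕ → List α} (hW : Computable W)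
    {s : ℕ × ℕ → ℕ} (hs : Computable s) {g : α → ℕ} (hg : Computable g) (c : ℕ) :
    Computable fun n => (W n).foldr (fun x acc => s (g x, acc)) c := by
  have h2 : Computable fun n => (W n).reverse := Primrec.list_reverse.to_comp.comp hW
  have h3 := list_foldl (f := fun n : ℕ => (W n).reverse) (g := fun _ => c)
    (h := fun _ (q : ℕ × α) => s (g q.2, q.1)) h2 (by fun_prop)
    (by
      have h4 : Computable fun p : ℕ × (ℕ × α) => s (g p.2.2, p.2.1) := by fun_prop
      exact h4)
  refine h3.of_eq fun n => ?_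
  rw [List.foldl_reverse]

theorem comp_code_wt {W : ℕ → List (Fin m × Bool)} (hW : Computable W) :
    Computable fun n => (wt (W n)).code := by
  have h1 : Computable fun x : Fin m × Bool => (vt m (.inr x)).code :=
    (Primrec.dom_finite _).to_comp
  have h2 := comp_foldr hW (cst_comp (m := m)) h1 (vt m (.inl 4)).code
  exact h2.of_eq fun n => (code_wt (W n)).symm

theorem comp_code_sen (R : Finset (FreeGroup (Fin m))) {W : ℕ → List (Fin m × Bool)}
    (hW : Computable W) : Computable fun n => (sen R (W n)).code := by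
  have h1 := comp_code_wt hW
  have h2 : Computable fun n => Nat.pair (nv m) (Nat.pair 0 (Nat.pair 3 (Nat.pair
    (LFm.code (.not (conjEq (hypEqs R (vt m (.inl 0)) (vt m (.inl 1)) (vt m (.inl 2))
      (vt m (.inl 3)) (vt m (.inl 4)) (vt m (.inl 5)) (fun x => vt m (.inr x))))))
    (Nat.pair 0 (Nat.pair (wt (W n)).code (vt m (.inl 4)).code))))) := by
    fun_prop
  exact h2

end reduction

/-- The Goedel numbering of `∀∃` sentences is injective, and for every computable field `F` and
every computable vector space `V` over `F` of countably infinite dimension with a dependence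
algorithm there is no algorithm that decides the truth in `L*(V)` of `∀∃` sentences; there is not
even one for universal sentences (those with an empty block of existential quantifiers). -/
theorem result : Function.Injective AESentence.code ∧
    ∀ (F : Type u) (V : Type v) [Field F] [Primcodable F] [AddCommGroup V] [Module F V]
      [Primcodable V] [ComputableSpace F V],
      (¬ ∃ D : ℕ → Bool, Computable D ∧
        ∀ σ : AESentence, D σ.code = true ↔ σ.Holds (LStar F V)) ∧
      (¬ ∃ D : ℕ → Bool, Computable D ∧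
        ∀ σ : AESentence, σ.k = 0 → (D σ.code = true ↔ σ.Holds (LStar F V))) := by
  refine ⟨AESentence.code_injective, ?_⟩
  intro F V _ _ _ _ _ _
  have key : ¬ ∃ D : ℕ → Bool, Computable D ∧
      ∀ σ : AESentence, σ.k = 0 → (D σ.code = true ↔ σ.Holds (LStar F V)) := by
    rintro ⟨D, hD, h⟩
    obtain ⟨m, R, W, hW, hund⟩ := Pool.Agent.Helper446.LS.WP.word_problem
    apply hund
    have h1 : Computable fun n => D (sen R (W n)).code := hD.comp (comp_code_sen R hW)
    refine ComputablePred.computable_iff.2 ⟨_, h1, ?_⟩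
    funext n
    apply propext
    rw [h (sen R (W n)) rfl, holds_sen_iff]
  refine ⟨?_, key⟩
  rintro ⟨D, hD, h⟩
  exact key ⟨D, hD, fun σ _ => h σ⟩

end Pool.Agent.Results.MP_8d6ead_lc.AEUndecidable
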